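import Mathlib
import Pool.Agent.Run7.h22.FinP

/-!
# Lehmer's problem for polynomials with few Frobenius automorphisms
-/

set_option autoImplicit false

open Polynomial NumberField

namespace Pool.Agent.Results.MP_dc0c68_nt.FewFrobeniusAutomorphisms

/-- the Mahler measure of an integer polynomial -/
noncomputable def M (f : ℤ[X]) : ℝ := (f.map (Int.castRingHom ℂ)).mahlerMeasure

/-- the splitting field over `ℚ` of an integer polynomial -/
abbrev L (f : ℤ[X]) : Type := (f.map (Int.castRingHom ℚ)).SplittingField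

/-- the number `p` is not contained in the square of a prime ideal of the splitting field of `f`; for
a prime number `p` this means that `p` is unramified in the splitting field -/
def Unramified (f : ℤ[X]) (p : ℕ) : Prop :=
  ∀ 𝔓 : Ideal (𝓞 (L f)), 𝔓.IsPrime → (p : 𝓞 (L f)) ∈ 𝔓 → (p : 𝓞 (L f)) ∉ 𝔓 ^ 2

/-- the automorphisms of the splitting field of `f` which are congruent to the map `x ↦ x ^ (p ^ a)`
modulo some prime ideal above `p`; if `p` is unramified they are the `a`-th powers of the Frobenius
automorphisms above `p` -/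
def frobenii (f : ℤ[X]) (p a : ℕ) : Set (L f ≃ₐ[ℚ] L f) :=
  {σ | ∃ 𝔓 : Ideal (𝓞 (L f)), 𝔓.IsPrime ∧ (p : 𝓞 (L f)) ∈ 𝔓 ∧
    ∀ x : 𝓞 (L f), σ • x - x ^ (p ^ a) ∈ 𝔓}

/-- the number of these automorphisms -/
noncomputable def k (f : ℤ[X]) (p a : ℕ) : ℕ := (frobenii f p a).ncard

/-- **Lehmer's problem for polynomials with few Frobenius automorphisms.** There is a constant `c > 0`
such that `M f ≥ min (2, exp (c (n / (p ^ (a + 1) k)) exp (-9 √(log 2k))))` for every prime number `p`,
every `a ≥ 1` and every irreducible integer polynomial `f` of degree `n` with `M f > 1`, in the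
splitting field of which `p` is unramified, where `k` is the number of the automorphisms of this field
which are `a`-th powers of Frobenius automorphisms above `p`. -/
theorem result : ∃ c : ℝ, 0 < c ∧ ∀ p a : ℕ, p.Prime → 1 ≤ a → ∀ f : ℤ[X], Irreducible f →
    Unramified f p → 1 < M f →
    min 2 (Real.exp (c * (f.natDegree / ((p : ℝ) ^ (a + 1) * k f p a)) *
      Real.exp (-9 * Real.sqrt (Real.log (2 * k f p a))))) ≤ M f := by
  obtain ⟨A, hA, h⟩ := Pool.Agent.Run7.h22.field_main_p
  refine ⟨1 / A, by positivity, ?_⟩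
  intro p a hp ha f hf hunr h1
  rcases le_or_gt 2 (M f) with h2 | h2
  · exact (min_le_left _ _).trans h2
  have h3 := Pool.Agent.Run7.h22.poly_main_p (A := A) (fun K _ _ _ p a => h K p a) p a hp ha f hunr
    hf h1 h2
  have h4 : (f.natDegree : ℝ) ≤ A * (p : ℝ) ^ (a + 1) *
      (k f p a * Real.exp (9 * Real.sqrt (Real.log (2 * k f p a)))) * Real.log (M f) := h3
  have hM : 0 < M f := by linarith
  have hlogM : 0 < Real.log (M f) := Real.log_pos h1
  refine (min_le_right _ _).trans ?_
  rw [← Real.le_log_iff_exp_le hM]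
  have hp0 : (0:ℝ) < (p : ℝ) ^ (a + 1) := by
    have : (0:ℝ) < p := by exact_mod_cast hp.pos
    positivity
  set s := Real.sqrt (Real.log (2 * k f p a)) with hs
  rcases Nat.eq_zero_or_pos (k f p a) with hk | hk
  · rw [hk]
    simp only [Nat.cast_zero, mul_zero, div_zero, zero_mul]
    exact hlogM.le
  have hk0 : (0:ℝ) < k f p a := by exact_mod_cast hk
  have h5 : Real.exp (9 * s) * Real.exp (-9 * s) = 1 := by
    rw [← Real.exp_add]
    simp
  have h6 : 0 < Real.exp (-9 * s) := Real.exp_pos _
  calc 1 / A * (f.natDegree / ((p : ℝ) ^ (a + 1) * k f p a)) * Real.exp (-9 * s)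
      ≤ 1 / A * ((A * (p : ℝ) ^ (a + 1) * (k f p a * Real.exp (9 * s)) * Real.log (M f)) /
        ((p : ℝ) ^ (a + 1) * k f p a)) * Real.exp (-9 * s) := by
        gcongr
    _ = Real.log (M f) * (Real.exp (9 * s) * Real.exp (-9 * s)) := by
        field_simp
    _ = Real.log (M f) := by rw [h5, mul_one]

end Pool.Agent.Results.MP_dc0c68_nt.FewFrobeniusAutomorphisms
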